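import Mathlib

namespace Pool.Agent.Results.MP_1004d8_al.AffineGroup

/-- The affine map `x ↦ g * α x` as a permutation of `G`. -/
def affMap {G : Type} [Group G] (g : G) (α : G ≃* G) : Equiv.Perm G :=
  α.toEquiv.trans (Equiv.mulLeft g)

@[ext] structure Aff (p : ℕ) where
  a : ZMod p
  u : (ZMod p)ˣ

variable {p : ℕ}

instance : Mul (Aff p) := ⟨fun x y => ⟨x.a + x.u * y.a, x.u * y.u⟩⟩
instance : One (Aff p) := ⟨⟨0, 1⟩⟩
instance : Inv (Aff p) := ⟨fun x => ⟨-((x.u⁻¹ : (ZMod p)ˣ) * x.a), x.u⁻¹⟩⟩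
@[simp] lemma mul_a (x y : Aff p) : (x * y).a = x.a + x.u * y.a := rfl
@[simp] lemma mul_u (x y : Aff p) : (x * y).u = x.u * y.u := rfl
@[simp] lemma one_a : (1 : Aff p).a = 0 := rfl
@[simp] lemma one_u : (1 : Aff p).u = 1 := rfl
@[simp] lemma inv_a (x : Aff p) : x⁻¹.a = -((x.u⁻¹ : (ZMod p)ˣ) * x.a) := rfl
@[simp] lemma inv_u (x : Aff p) : x⁻¹.u = x.u⁻¹ := rfl

instance : Group (Aff p) := Group.ofLeftAxioms
  (fun x y z => by ext <;> simp [mul_assoc]; ring) (fun x => by ext <;> simp)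
  (fun x => by ext <;> simp)

def eqv : Aff p ≃ ZMod p × (ZMod p)ˣ := ⟨fun x => (x.a, x.u), fun y => ⟨y.1, y.2⟩, fun _ => rfl,
  fun _ => rfl⟩

instance [NeZero p] : Finite (Aff p) := Finite.of_equiv _ eqv.symm

lemma card_aff [Fact p.Prime] : Nat.card (Aff p) = p * (p - 1) := by
  rw [Nat.card_congr eqv, Nat.card_prod, Nat.card_zmod, Nat.card_eq_fintype_card, ZMod.card_units]

lemma pow1 (k : ℕ) : (⟨1, 1⟩ : Aff p) ^ k = ⟨k, 1⟩ := by
  induction k with
  | zero => ext <;> simp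
  | succ k ih => rw [pow_succ, ih]; ext <;> simp

lemma pow2 (h : (ZMod p)ˣ) (k : ℕ) : (⟨0, h⟩ : Aff p) ^ k = ⟨0, h ^ k⟩ := by
  induction k with
  | zero => ext <;> simp
  | succ k ih => rw [pow_succ, ih]; ext <;> simp [pow_succ]

lemma iter {G : Type} [Group G] (g h : G) (k : ℕ) (x : G) :
    (affMap (g * h) (MulAut.conj h⁻¹) ^ k) x = g ^ k * x * h ^ k := by
  induction k with
  | zero => simp
  | succ k ih =>
    rw [pow_succ', Equiv.Perm.mul_apply, ih, pow_succ' g, pow_succ h]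
    simp [affMap, mul_assoc]

lemma comm_le [Fact p.Prime] : Nat.card {q : Aff p × Aff p // Commute q.1 q.2} ≤
    Nat.card (Aff p) * p + Nat.card (Aff p) := by
  classical
  let φ : {q : Aff p × Aff p // Commute q.1 q.2} → (Aff p × ZMod p) ⊕ Aff p := fun q =>
    if q.1.1 = 1 then Sum.inr q.1.2 else
      Sum.inl (q.1.1, if q.1.1.u = 1 then q.1.2.a else q.1.2.u)
  have inj : Function.Injective φ := by
    rintro ⟨⟨x, y⟩, h⟩ ⟨⟨x', y'⟩, h'⟩ e
    simp only [φ] at e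
    by_cases h1 : x = 1 <;> by_cases h2 : x' = 1 <;> simp only [h1, h2, if_true, if_false,
      Sum.inr.injEq, Sum.inl.injEq, reduceCtorEq, Prod.mk.injEq] at e
    · subst h1 h2 e; rfl
    obtain ⟨rfl, e⟩ := e
    have c1 := congrArg Aff.a h.eq
    have c2 := congrArg Aff.a h'.eq
    simp only [mul_a] at c1 c2
    have : y = y' := by
      by_cases hu : x.u = 1
      · rw [if_pos hu, if_pos hu] at e
        have ha : x.a ≠ 0 := fun h0 => h1 (Aff.ext h0 hu)
        rw [hu] at c1 c2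
        refine Aff.ext e (Units.ext (mul_right_cancel₀ ha ?_))
        simp only [Units.val_one] at c1 c2
        linear_combination c2 - c1
      · rw [if_neg hu, if_neg hu] at e
        have : (x.u : ZMod p) - 1 ≠ 0 := fun h0 => hu (Units.ext (sub_eq_zero.1 h0))
        refine Aff.ext (mul_left_cancel₀ this ?_) (Units.ext e)
        linear_combination c1 - c2 + x.a * e
    subst this; rfl
  have := Nat.card_le_card_of_injective φ inj
  rwa [Nat.card_sum, Nat.card_prod, Nat.card_zmod] at this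

theorem result (ε : ℚ) (hε : 0 < ε) : ∃ (G : Type) (_ : Group G) (_ : Finite G) (g : G)
    (α : G ≃* G), Nat.card G ≤ orderOf (affMap g α) ∧ commProb G < ε := by
  obtain ⟨N, hN⟩ := exists_nat_gt (2 / ε)
  obtain ⟨p, hp, pp⟩ := Nat.exists_infinite_primes (N + 2)
  haveI := Fact.mk pp
  obtain ⟨h, hh⟩ := IsCyclic.exists_ofOrder_eq_natCard (α := (ZMod p)ˣ)
  rw [Nat.card_eq_fintype_card, ZMod.card_units] at hh
  refine ⟨Aff p, inferInstance, inferInstance, ⟨1, 1⟩ * ⟨0, h⟩, MulAut.conj (⟨0, h⟩ : Aff p)⁻¹,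
    ?_, ?_⟩
  · rw [card_aff]
    refine Nat.le_of_dvd (orderOf_pos _) ?_
    set k := orderOf (affMap ((⟨1, 1⟩ : Aff p) * ⟨0, h⟩) (MulAut.conj (⟨0, h⟩ : Aff p)⁻¹))
    have := iter (⟨1, 1⟩ : Aff p) ⟨0, h⟩ k 1
    rw [pow_orderOf_eq_one, pow1, pow2] at this
    have c1 := congrArg Aff.a this
    have c2 := congrArg Aff.u this
    simp at c1 c2
    refine Nat.Coprime.mul_dvd_of_dvd_of_dvd ?_ ((ZMod.natCast_eq_zero_iff _ _).1 c1.symm)
      (hh ▸ orderOf_dvd_of_pow_eq_one c2.symm)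
    obtain ⟨m, rfl⟩ : ∃ m, p = m + 1 := ⟨p - 1, by omega⟩
    simp
  · have c := comm_le (p := p)
    rw [commProb_def, card_aff] at *
    obtain ⟨m, rfl⟩ : ∃ m, p = m + 1 := ⟨p - 1, by omega⟩
    simp only [Nat.add_sub_cancel] at *
    have m1 : (N : ℚ) + 1 ≤ m := by exact_mod_cast (by omega : N + 1 ≤ m)
    have c' := (Nat.cast_le (α := ℚ)).2 c
    rw [div_lt_iff₀ hε] at hN
    have n0 : (0 : ℚ) ≤ N := Nat.cast_nonneg _
    have m0 : (0 : ℚ) < m := by linarith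
    rw [div_lt_iff₀ (by push_cast; positivity)]
    refine c'.trans_lt ?_
    push_cast
    have k1 : (2 : ℚ) < m * ε := by nlinarith
    have k2 : (m + 2 : ℚ) < ε * ((m + 1) * m) := by nlinarith
    have k3 : (0 : ℚ) < (m + 1) * m := by positivity
    nlinarith

end Pool.Agent.Results.MP_1004d8_al.AffineGroup
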